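import Pool.Agent.helper22.GS.Spec

set_option autoImplicit false

namespace Pool.Agent.GS

open Module

theorem ME_sq {F : Type} [Field F] [Finite F] {x y : F} (hx : x ≠ 0)
    (hy : y ≠ 0) : IsSquare (x * y) ↔ (IsSquare x ↔ IsSquare y) := by
  classical
  have := Fintype.ofFinite F
  rw [← quadraticChar_one_iff_isSquare hx, ← quadraticChar_one_iff_isSquare hy,
    ← quadraticChar_one_iff_isSquare (mul_ne_zero hx hy), map_mul]
  rcases quadraticChar_dichotomy hx with h | h <;> rcases quadraticChar_dichotomy hy with h' | h' <;>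
    rw [h, h'] <;> norm_num

theorem ME_char {F K : Type} [Field F] [Field K] [Algebra F K] : ringChar K = ringChar F := by
  have : CharP K (ringChar F) :=
    charP_of_injective_algebraMap (algebraMap F K).injective (ringChar F)
  exact ringChar.eq K (ringChar F)

theorem ME_prod {F : Type} [Field F] {τ : F} (hτ : τ ≠ 0) {k : ℕ} :
    ∀ i : Fin k ⊕ Fin k, nrm' τ i ≠ 0 := by
  rintro (i | i)
  · exact one_ne_zero
  · exact neg_ne_zero.mpr hτ

/-- ME -/
theorem ME (hBF : BF_stmt) (hDD : DD_stmt) (hDG : DG_stmt) (hOB : OB_stmt) : ME_stmt := by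
  intro F K _ _ _ _ _ k hk hrk σ τ hσ hτ hsq
  have : Finite F := Finite.of_injective _ (algebraMap F K).injective
  obtain ⟨hSym, -, -⟩ := hBF (F := F) (K := K)
  have e : Fin (2 * k) ≃ Fin k ⊕ Fin k := (finCongr (two_mul k)).trans finSumFinEquiv.symm
  set β₀ : Basis (Fin k ⊕ Fin k) F K := (Module.finBasisOfFinrankEq F K hrk).reindex e with hβ₀
  by_cases hF : ringChar F = 2
  · -- characteristic two
    have hK : ringChar K = 2 := by rw [ME_char (F := F), hF]
    obtain ⟨s, hs⟩ := FiniteField.isSquare_of_char_two hF (-τ)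
    have hs0 : s ≠ 0 := by
      rintro rfl
      apply hτ
      rw [mul_zero] at hs
      exact neg_eq_zero.mp hs
    have key : ∀ α : K, α ≠ 0 → ∃ u : Basis (Fin k ⊕ Fin k) F K, Orth (bf F K α) u (nrm' τ) := by
      intro α hα
      have hex : ∃ x, bf F K α x x ≠ 0 := by
        have h1 : ∃ z : K, Algebra.trace F K z ≠ 0 := by
          by_contra hno
          push Not at hno
          have h2 := (hSym 1 one_ne_zero).nd 1 (fun y => by
            rw [bf_apply]
            exact hno _)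
          exact one_ne_zero h2
        obtain ⟨z, hz⟩ := h1
        obtain ⟨x, hx⟩ := FiniteField.isSquare_of_char_two hK (α * z)
        refine ⟨x, ?_⟩
        rw [bf_apply, mul_assoc, ← hx, ← mul_assoc, inv_mul_cancel₀ hα, one_mul]
        exact hz
      obtain ⟨u, hu⟩ := hOB (bf F K α) hF (hSym α hα) β₀ hex
      set w : Fin k ⊕ Fin k → Fˣ := fun i => match i with
        | .inl _ => 1
        | .inr _ => Units.mk0 s hs0 with hw
      refine ⟨u.unitsSMul w, ?_⟩
      intro i j
      rw [Basis.unitsSMul_apply, Basis.unitsSMul_apply, Units.smul_def, Units.smul_def, map_smul,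
        map_smul, LinearMap.smul_apply, smul_eq_mul, smul_eq_mul, hu i j]
      by_cases hij : i = j
      · subst hij
        rw [if_pos rfl, if_pos rfl, mul_one]
        rcases i with i | i
        · show ((1 : Fˣ) : F) * ((1 : Fˣ) : F) = 1
          rw [Units.val_one, mul_one]
        · show s * s = -τ
          exact hs.symm
      · rw [if_neg hij, if_neg hij, mul_zero, mul_zero]
    obtain ⟨u, hu⟩ := key 1 one_ne_zero
    obtain ⟨w, hw⟩ := key σ hσ
    exact ⟨1, σ, u, w, one_ne_zero, hσ, one_mul σ, hu, hw⟩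
  · -- odd characteristic
    have hKc : ringChar K ≠ 2 := by rw [ME_char (F := F)]; exact hF
    set D : F := dt (bf F K 1) β₀ with hD
    set C : F := ∏ i : Fin k ⊕ Fin k, nrm' τ i with hC
    have hC0 : C ≠ 0 := Finset.prod_ne_zero_iff.mpr fun i _ => ME_prod hτ i
    have hD0 : D ≠ 0 := (hDD β₀ hF 1 one_ne_zero).1
    have key : ∀ γ : K, γ ≠ 0 → (IsSquare (dt (bf F K γ) β₀ * C) ↔ (IsSquare γ ↔ IsSquare (D * C))) := by
      intro γ hγ
      obtain ⟨h1, h2⟩ := hDD β₀ hF γ hγ
      rw [← hD] at h2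
      rw [ME_sq h1 hC0, ← h2, ME_sq h1 hD0, ME_sq hD0 hC0]
      tauto
    have hα : ∃ α : K, α ≠ 0 ∧ IsSquare (dt (bf F K α) β₀ * C) := by
      by_cases hDC : IsSquare (D * C)
      · exact ⟨1, one_ne_zero, hDC⟩
      · obtain ⟨α, hα⟩ := FiniteField.exists_nonsquare hKc
        have hα0 : α ≠ 0 := by
          rintro rfl
          exact hα (IsSquare.zero)
        refine ⟨α, hα0, (key α hα0).mpr ?_⟩
        tauto
    obtain ⟨α, hα0, hαs⟩ := hα
    have hβ0 : σ / α ≠ 0 := div_ne_zero hσ hα0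
    have hαβ : α * (σ / α) = σ := mul_div_cancel₀ σ hα0
    have hβs : IsSquare (dt (bf F K (σ / α)) β₀ * C) := by
      rw [key _ hβ0]
      rw [key _ hα0] at hαs
      have h3 : IsSquare α ↔ IsSquare (σ / α) := by
        rw [← ME_sq hα0 hβ0, hαβ]
        exact hsq
      rw [← h3]
      exact hαs
    obtain ⟨⟨u, hu⟩, -⟩ := hDG (bf F K α) hF (hSym α hα0) β₀ (nrm' τ) (ME_prod hτ) hαs
    obtain ⟨⟨w, hw⟩, -⟩ := hDG (bf F K (σ / α)) hF (hSym _ hβ0) β₀ (nrm' τ) (ME_prod hτ) hβs
    exact ⟨α, σ / α, u, w, hα0, hβ0, hαβ, hu, hw⟩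

end Pool.Agent.GS
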